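import Pool.Agent.P.MP_207313_an.Defs

/-!
Lattice operations in `H[E]`, the generated sublattice, and the domination lemma.
-/

namespace Pool.Agent.P.MP_207313_an

variable {E : Type} [NormedAddCommGroup E] [NormedSpace ℝ E]

lemma norm_def (f : H E) : ‖f‖ = sSup (normSet E f.1) := rfl

@[simp] lemma add_val (f g : H E) (φ : StrongDual ℝ E) : (f + g).1 φ = f.1 φ + g.1 φ := rfl
@[simp] lemma sub_val (f g : H E) (φ : StrongDual ℝ E) : (f - g).1 φ = f.1 φ - g.1 φ := rfl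
@[simp] lemma neg_val (f : H E) (φ : StrongDual ℝ E) : (-f).1 φ = -f.1 φ := rfl
@[simp] lemma smul_val (a : ℝ) (f : H E) (φ : StrongDual ℝ E) : (a • f).1 φ = a * f.1 φ := rfl
@[simp] lemma zero_val (φ : StrongDual ℝ E) : (0 : H E).1 φ = 0 := rfl
@[simp] lemma delta_val (x : E) (φ : StrongDual ℝ E) : (delta E x).1 φ = φ x := rfl

lemma sum_val {ι : Type*} (s : Finset ι) (f : ι → H E) (φ : StrongDual ℝ E) :
    (∑ j ∈ s, f j).1 φ = ∑ j ∈ s, (f j).1 φ := by
  classical
  induction s using Finset.induction_on with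
  | empty => simp
  | insert a s ha ih => rw [Finset.sum_insert ha, Finset.sum_insert ha, add_val, ih]

lemma norm_le_of_abs_le {k f : H E} {a : ℝ} (ha : 0 ≤ a) (h : ∀ φ, |k.1 φ| ≤ a * |f.1 φ|) :
    ‖k‖ ≤ a * ‖f‖ := by
  have := sSup_le_of E (k := k) (f := f) (g := f) ha le_rfl fun φ => by simpa using h φ
  simpa [norm_def] using this

lemma norm_delta_le (x : E) : ‖delta E x‖ ≤ ‖x‖ := by
  rw [norm_def]
  apply csSup_le ⟨_, zero_mem_normSet E _⟩
  rintro _ ⟨m, y, hy, rfl⟩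
  rcases eq_or_ne x 0 with rfl | h
  · simp
  · have hp : 0 < ‖x‖ := norm_pos_iff.mpr h
    have := hy (‖x‖⁻¹ • x) (by simp [norm_smul, hp.ne'])
    simpa [abs_mul, ← Finset.mul_sum, inv_mul_le_iff₀ hp] using this

/-- Pointwise maximum. -/
def supH (f g : H E) : H E :=
  ⟨fun φ => max (f.1 φ) (g.1 φ), fun c φ hc => by
    show max (f.1 (c • φ)) (g.1 (c • φ)) = c * max (f.1 φ) (g.1 φ)
    rw [f.2.1 c φ hc, g.2.1 c φ hc, mul_max_of_nonneg _ _ hc], by
    obtain ⟨A, hA⟩ := f.2.2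
    obtain ⟨B, hB⟩ := g.2.2
    refine ⟨_, normSet_le E zero_le_one zero_le_one (fun φ => ?_) hA hB⟩
    rw [one_mul, one_mul]
    rcases max_cases (f.1 φ) (g.1 φ) with ⟨h, _⟩ | ⟨h, _⟩ <;> rw [h] <;>
      linarith [abs_nonneg (f.1 φ), abs_nonneg (g.1 φ)]⟩

@[simp] lemma supH_val (f g : H E) (φ : StrongDual ℝ E) :
    (supH f g).1 φ = max (f.1 φ) (g.1 φ) := rfl

/-- Pointwise absolute value. -/
def absH (f : H E) : H E := supH f (-f)

@[simp] lemma absH_val (f : H E) (φ : StrongDual ℝ E) : (absH f).1 φ = |f.1 φ| := rfl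

/-- Truncation of `f` to `[-p, p]`. -/
def clip (f p : H E) : H E := supH (-(supH (-f) (-p))) (-p)

lemma clip_val (f p : H E) (φ : StrongDual ℝ E) :
    (clip f p).1 φ = max (min (f.1 φ) (p.1 φ)) (-p.1 φ) := by
  simp [clip, max_neg_neg]

variable (E) in
/-- The sublattice generated by the evaluations. -/
noncomputable def L0 : Submodule ℝ (H E) :=
  sInf {S : Submodule ℝ (H E) | (∀ x : E, delta E x ∈ S) ∧
    ∀ f ∈ S, ∀ g ∈ S, ∀ k : H E, (∀ φ, k.1 φ = max (f.1 φ) (g.1 φ)) → k ∈ S}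

lemma FBL_eq : FBL E = (L0 E).topologicalClosure := rfl

lemma delta_mem (x : E) : delta E x ∈ L0 E :=
  Submodule.mem_sInf.mpr fun _ hS => hS.1 x

lemma supH_mem {f g : H E} (hf : f ∈ L0 E) (hg : g ∈ L0 E) : supH f g ∈ L0 E :=
  Submodule.mem_sInf.mpr fun S hS => hS.2 f (Submodule.mem_sInf.mp hf S hS) g
    (Submodule.mem_sInf.mp hg S hS) _ fun _ => rfl

lemma absH_mem {f : H E} (hf : f ∈ L0 E) : absH f ∈ L0 E := supH_mem hf (neg_mem hf)

lemma clip_mem {f p : H E} (hf : f ∈ L0 E) (hp : p ∈ L0 E) : clip f p ∈ L0 E :=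
  supH_mem (neg_mem (supH_mem (neg_mem hf) (neg_mem hp))) (neg_mem hp)

lemma continuous_of_mem {f : H E} (hf : f ∈ L0 E) : Continuous f.1 := by
  let S : Submodule ℝ (H E) :=
    { carrier := {f | Continuous f.1}
      add_mem' := fun {a b} ha hb => Continuous.add ha hb
      zero_mem' := continuous_const
      smul_mem' := fun c x hx => Continuous.mul continuous_const hx }
  refine Submodule.mem_sInf.mp hf S ⟨fun x => ?_, fun f hf g hg k hk => ?_⟩
  · exact (ContinuousLinearMap.apply ℝ ℝ x).continuous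
  · show Continuous k.1
    rw [show k.1 = fun φ => max (f.1 φ) (g.1 φ) from funext hk]
    exact Continuous.max hf hg

section pair

variable {u v : E} (hball : ∀ y : E, ‖y‖ ≤ 1 → ∃ s t : ℝ, y = s • u + t • v ∧ |s| + |t| ≤ 1)
include hball

lemma sum_le_norm' (k : H E) {m : ℕ} (x : Fin m → StrongDual ℝ E) {C : ℝ} (hC : 0 < C)
    (h1 : ∑ i, |x i u| ≤ C) (h2 : ∑ i, |x i v| ≤ C) : ∑ i, |k.1 (x i)| ≤ C * ‖k‖ := by
  have h3 : ∑ i, |k.1 (C⁻¹ • x i)| ≤ ‖k‖ := by
    refine le_csSup k.2.2 ⟨m, fun i => C⁻¹ • x i, fun y hy => ?_, rfl⟩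
    obtain ⟨s, t, rfl, hst⟩ := hball y hy
    have h4 : ∀ i, |(C⁻¹ • x i) (s • u + t • v)| ≤ C⁻¹ * (|s| * |x i u| + |t| * |x i v|) := by
      intro i
      simp only [smul_apply, map_add, map_smul, smul_eq_mul]
      rw [← abs_mul, ← abs_mul]
      have := abs_add_le (s * (C⁻¹ * x i u)) (t * (C⁻¹ * x i v))
      refine this.trans (le_of_eq ?_)
      simp only [abs_mul, abs_of_pos (inv_pos.mpr hC)]
      ring
    refine (Finset.sum_le_sum fun i _ => h4 i).trans ?_
    rw [← Finset.mul_sum, Finset.sum_add_distrib, ← Finset.mul_sum, ← Finset.mul_sum,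
      inv_mul_le_iff₀ hC]
    have a1 := mul_le_mul_of_nonneg_left h1 (abs_nonneg s)
    have a2 := mul_le_mul_of_nonneg_left h2 (abs_nonneg t)
    nlinarith
  have h5 : ∀ i, |k.1 (C⁻¹ • x i)| = C⁻¹ * |k.1 (x i)| := by
    intro i
    rw [k.2.1 _ _ (inv_pos.mpr hC).le, abs_mul, abs_of_pos (inv_pos.mpr hC)]
  simp_rw [h5] at h3
  rwa [← Finset.mul_sum, inv_mul_le_iff₀ hC] at h3

lemma sum_le_norm (k : H E) {m : ℕ} (x : Fin m → StrongDual ℝ E) {C : ℝ} (hC : 0 ≤ C)
    (h1 : ∑ i, |x i u| ≤ C) (h2 : ∑ i, |x i v| ≤ C) : ∑ i, |k.1 (x i)| ≤ C * ‖k‖ := by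
  apply le_of_forall_pos_le_add
  intro ε hε
  have hk := norm_nonneg k
  have hd : 0 < ε / (‖k‖ + 1) := by positivity
  have := sum_le_norm' hball k x (C := C + ε / (‖k‖ + 1)) (by linarith) (by linarith) (by linarith)
  have h3 : ε / (‖k‖ + 1) * ‖k‖ ≤ ε := by
    rw [div_mul_eq_mul_div, div_le_iff₀ (by linarith)]
    nlinarith
  linarith [add_mul C (ε / (‖k‖ + 1)) ‖k‖]

/-- Domination of an element of the unit ball by a convex combination of `|δ_u|` and `|δ_v|`. -/
lemma domination (g : H E) (hg : ‖g‖ ≤ 1) :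
    ∃ w : ℝ, 0 ≤ w ∧ w ≤ 1 ∧ ∀ φ, |g.1 φ| ≤ w * |φ u| + (1 - w) * |φ v| := by
  have single : ∀ φ : StrongDual ℝ E, |g.1 φ| ≤ max |φ u| |φ v| := by
    intro φ
    have h0 : 0 ≤ max |φ u| |φ v| := le_max_of_le_left (abs_nonneg _)
    have := sum_le_norm hball g ![φ] h0 (by simp) (by simp)
    simp only [Finset.univ_unique, Finset.sum_singleton, Matrix.cons_val_fin_one] at this
    nlinarith
  have pair : ∀ φ φ' : StrongDual ℝ E, |φ v| < |φ u| → |φ' u| < |φ' v| →
      (|g.1 φ| - |φ v|) * (|φ' v| - |φ' u|) ≤ (|φ' v| - |g.1 φ'|) * (|φ u| - |φ v|) := by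
    intro φ φ' h h'
    set s := |φ' v| - |φ' u| with hs
    set t := |φ u| - |φ v| with ht
    have hs0 : 0 ≤ s := by linarith
    have ht0 : 0 ≤ t := by linarith
    have h0 : 0 ≤ s * |φ v| + t * |φ' v| := by positivity
    have := sum_le_norm hball g ![s • φ, t • φ'] h0
      (by
        simp only [Fin.sum_univ_two, Matrix.cons_val_zero, Matrix.cons_val_one,
          smul_apply, smul_eq_mul, abs_mul, abs_of_nonneg hs0,
          abs_of_nonneg ht0]
        rw [hs, ht]; apply le_of_eq; ring)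
      (by
        simp only [Fin.sum_univ_two, Matrix.cons_val_zero, Matrix.cons_val_one,
          smul_apply, smul_eq_mul, abs_mul, abs_of_nonneg hs0,
          abs_of_nonneg ht0]
        exact le_rfl)
    simp only [Fin.sum_univ_two, Matrix.cons_val_zero, Matrix.cons_val_one] at this
    rw [g.2.1 _ _ hs0, g.2.1 _ _ ht0, abs_mul, abs_mul, abs_of_nonneg hs0,
      abs_of_nonneg ht0] at this
    nlinarith
  set W : Set ℝ := {r | r = 0 ∨ ∃ φ : StrongDual ℝ E, |φ v| < |φ u| ∧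
    r = (|g.1 φ| - |φ v|) / (|φ u| - |φ v|)} with hW
  have hne : W.Nonempty := ⟨0, Or.inl rfl⟩
  have hub : (1 : ℝ) ∈ upperBounds W := by
    rintro r (rfl | ⟨φ, h, rfl⟩)
    · exact zero_le_one
    · rw [div_le_one (by linarith)]
      have := single φ
      rw [max_eq_left h.le] at this
      linarith
  have hbdd : BddAbove W := ⟨1, hub⟩
  refine ⟨sSup W, le_csSup hbdd (Or.inl rfl), csSup_le hne hub, fun φ => ?_⟩
  rcases lt_trichotomy |φ v| |φ u| with h | h | h
  · have := le_csSup hbdd (Or.inr ⟨φ, h, rfl⟩)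
    rw [div_le_iff₀ (by linarith)] at this
    linarith
  · have := single φ
    rw [h, max_self] at this
    rw [h]; linarith
  · have : sSup W ≤ (|φ v| - |g.1 φ|) / (|φ v| - |φ u|) := by
      apply csSup_le hne
      rintro r (rfl | ⟨φ', h', rfl⟩)
      · have := single φ
        rw [max_eq_right h.le] at this
        exact div_nonneg (by linarith) (by linarith)
      · rw [div_le_div_iff₀ (by linarith) (by linarith)]
        exact pair φ' φ h' h
    rw [le_div_iff₀ (by linarith)] at this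
    linarith

/-- Riesz decomposition: a functional almost attains its value on an order interval. -/
lemma riesz_step (F : H E →L[ℝ] ℝ) (g : H E) (hg0 : g ∈ L0 E) (hg : ‖g‖ ≤ 1) (r : ℝ)
    (hr : r < F g) :
    (∃ g' ∈ L0 E, (∀ φ, |g'.1 φ| ≤ |φ u|) ∧ r < F g') ∨
      (∃ g' ∈ L0 E, (∀ φ, |g'.1 φ| ≤ |φ v|) ∧ r < F g') := by
  obtain ⟨w, hw0, hw1, hw⟩ := domination hball g hg
  set g1 := clip g (w • absH (delta E u)) with hg1
  have hg1m : g1 ∈ L0 E := clip_mem hg0 (Submodule.smul_mem _ _ (absH_mem (delta_mem u)))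
  have b1 : ∀ φ, |g1.1 φ| ≤ w * |φ u| := by
    intro φ
    have : 0 ≤ w * |φ u| := by positivity
    rw [hg1, clip_val, smul_val, absH_val, delta_val, abs_le]
    exact ⟨le_max_right _ _, max_le (min_le_right _ _) (by linarith)⟩
  have b2 : ∀ φ, |(g - g1).1 φ| ≤ (1 - w) * |φ v| := by
    intro φ
    have p1 : 0 ≤ w * |φ u| := by positivity
    have p2 : 0 ≤ (1 - w) * |φ v| := mul_nonneg (by linarith) (abs_nonneg _)
    have := abs_le.mp (hw φ)
    rw [sub_val, hg1, clip_val, smul_val, absH_val, delta_val, abs_le]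
    rcases min_cases (g.1 φ) (w * |φ u|) with ⟨h1, h2⟩ | ⟨h1, h2⟩ <;> rw [h1]
    · rcases max_cases (g.1 φ) (-(w * |φ u|)) with ⟨h3, h4⟩ | ⟨h3, h4⟩ <;> rw [h3] <;>
        constructor <;> linarith
    · rw [max_eq_left (by linarith)]
      constructor <;> linarith
  have scale : ∀ (k : H E) (c : ℝ) (x : E), k ∈ L0 E → 0 ≤ c → (∀ φ, |k.1 φ| ≤ c * |φ x|) →
      c * r < F k → ∃ g' ∈ L0 E, (∀ φ, |g'.1 φ| ≤ |φ x|) ∧ r < F g' := by
    intro k c x hk hc hb hF
    rcases hc.eq_or_lt with rfl | hc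
    · exfalso
      have : k = 0 := Subtype.ext (funext fun φ => by
        have := hb φ
        rw [zero_mul] at this
        exact abs_nonpos_iff.mp this)
      rw [this] at hF
      simp at hF
    · refine ⟨c⁻¹ • k, Submodule.smul_mem _ _ hk, fun φ => ?_, ?_⟩
      · rw [smul_val, abs_mul, abs_of_pos (inv_pos.mpr hc), inv_mul_le_iff₀ hc]
        exact hb φ
      · rw [map_smul, smul_eq_mul, lt_inv_mul_iff₀ hc]
        exact hF
  by_cases h : w * r < F g1
  · exact Or.inl (scale g1 w u hg1m hw0 b1 h)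
  · refine Or.inr (scale (g - g1) (1 - w) v (sub_mem hg0 hg1m) (by linarith) b2 ?_)
    rw [map_sub]
    linarith [not_lt.mp h]

end pair

end Pool.Agent.P.MP_207313_an
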