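import Pool.Agent.P.MP_207313_an.Basic

/-!
Changing an element of an order interval on disjoint thin cones.
-/

namespace Pool.Agent.P.MP_207313_an

open Filter Topology

variable {E : Type} [NormedAddCommGroup E] [NormedSpace ℝ E]

lemma clip_abs_le (f p : H E) (φ : StrongDual ℝ E) (hp : 0 ≤ p.1 φ) :
    |(clip f p).1 φ| ≤ p.1 φ := by
  rw [clip_val, abs_le]
  exact ⟨le_max_right _ _, max_le (min_le_right _ _) (by linarith)⟩

lemma exists_gap {κ : Type*} [Finite κ] (R : κ → ℝ) (hR : Function.Injective R) :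
    ∃ ρ : ℝ, 0 < ρ ∧ ∀ k l, k ≠ l → 2 * ρ ≤ |R k - R l| := by
  have h : ∀ᶠ ρ : ℝ in 𝓝[>] 0, ∀ k l, k ≠ l → 2 * ρ ≤ |R k - R l| := by
    rw [eventually_all]
    intro k
    rw [eventually_all]
    intro l
    by_cases hkl : k = l
    · exact Eventually.of_forall fun _ h => absurd hkl h
    · have hp : 0 < |R k - R l| / 2 := by
        have : R k - R l ≠ 0 := sub_ne_zero.mpr fun h => hkl (hR h)
        positivity
      filter_upwards [nhdsWithin_le_nhds (ge_mem_nhds hp)] with ρ hρ _
      have : ρ ≤ |R k - R l| / 2 := hρ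
      linarith
  obtain ⟨ρ, h1, h2⟩ := (h.and self_mem_nhdsWithin).exists
  exact ⟨ρ, h2, h1⟩

lemma eventually_inj {κ : Type*} [Finite κ] (r c : κ → ℝ) (hc : Function.Injective c) :
    ∀ᶠ θ : ℝ in 𝓝[>] 0, Function.Injective fun k => r k + θ * c k := by
  have h : ∀ᶠ θ : ℝ in 𝓝[>] 0, ∀ k l, k ≠ l → r k + θ * c k ≠ r l + θ * c l := by
    rw [eventually_all]
    intro k
    rw [eventually_all]
    intro l
    by_cases hkl : k = l
    · exact Eventually.of_forall fun _ h => absurd hkl h
    · by_cases hr : r k = r l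
      · filter_upwards [self_mem_nhdsWithin] with θ hθ _ h
        have hθ' : (0 : ℝ) < θ := hθ
        rw [hr, add_right_inj] at h
        exact hkl (hc (mul_left_cancel₀ hθ'.ne' h))
      · have hcont : ContinuousAt (fun θ : ℝ => r k + θ * c k - (r l + θ * c l)) 0 := by
          fun_prop
        have := hcont.eventually_ne (y := 0) (by simpa [sub_eq_zero] using hr)
        filter_upwards [nhdsWithin_le_nhds this] with θ hθ _ h
        exact hθ (sub_eq_zero.mpr h)
  filter_upwards [h] with θ hθ k l hkl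
  by_contra hne
  exact hθ k l hne hkl

lemma bump_step {u v : E}
    (hball : ∀ y : E, ‖y‖ ≤ 1 → ∃ s t : ℝ, y = s • u + t • v ∧ |s| + |t| ≤ 1)
    (hu : ‖u‖ ≤ 1) (hv : ‖v‖ ≤ 1) (pu pv : StrongDual ℝ E) (h11 : pu u = 1) (h12 : pu v = 0)
    (h21 : pv u = 0) (h22 : pv v = 1) (F : H E →L[ℝ] ℝ) (g : H E) (hg0 : g ∈ L0 E)
    (hg : ∀ φ, |g.1 φ| ≤ |φ u|) (f : H E) (hf0 : f ∈ L0 E) (η : ℝ) (hη : 0 < η) :
    ∃ h ∈ L0 E, (∀ φ, |h.1 φ| ≤ |φ u|) ∧ F g - η ≤ F h ∧ 1 + ‖f‖ - η ≤ ‖h + f‖ := by
  classical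
  obtain ⟨_, ⟨m, x, hx, rfl⟩, hxf⟩ := exists_lt_of_lt_csSup ⟨_, zero_mem_normSet E f.1⟩
    (show ‖f‖ - η / 4 < sSup (normSet E f.1) by rw [← norm_def]; linarith)
  set y : Fin (m + 1) → StrongDual ℝ E := Fin.cons ((1 - ∑ i, |x i u|) • pu) x with hy
  have hyu : ∑ i, |y i u| = 1 := by
    have := hx u hu
    simp only [hy, Fin.sum_univ_succ, Fin.cons_zero, Fin.cons_succ, smul_apply, h11, smul_eq_mul,
      mul_one]
    rw [abs_of_nonneg (by linarith)]
    ring
  have hyv : ∑ i, |y i v| ≤ 1 := by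
    have := hx v hv
    simp only [hy, Fin.sum_univ_succ, Fin.cons_zero, Fin.cons_succ, smul_apply, h12, smul_eq_mul,
      mul_zero, abs_zero, zero_add]
    exact this
  have hyf : ‖f‖ - η / 4 ≤ ∑ i, |f.1 (y i)| := by
    simp only [hy, Fin.sum_univ_succ, Fin.cons_zero, Fin.cons_succ]
    linarith [abs_nonneg (f.1 ((1 - ∑ i, |x i u|) • pu))]
  obtain ⟨N, hN⟩ := exists_nat_gt (2 * ‖F‖ / η)
  have hN0 : (0 : ℝ) < N := lt_of_le_of_lt (by positivity) hN
  have hNη : 2 * ‖F‖ / N ≤ η := by
    rw [div_lt_iff₀ hη] at hN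
    rw [div_le_iff₀ hN0]
    linarith
  set c : Fin N × Fin (m + 1) → ℝ := fun k => ((finProdFinEquiv k : ℕ) : ℝ) with hc
  have hcinj : Function.Injective c := fun k l h =>
    finProdFinEquiv.injective (Fin.ext (Nat.cast_injective (R := ℝ) h))
  set M : ℝ := ((N * (m + 1) : ℕ) : ℝ) with hM
  have hc0 : ∀ k, 0 ≤ c k := fun k => Nat.cast_nonneg _
  have hcM : ∀ k, c k ≤ M := fun k => by
    simp only [hc, hM]
    exact_mod_cast (finProdFinEquiv k).2.le
  set r : Fin N × Fin (m + 1) → ℝ := fun k => y k.2 v / y k.2 u with hr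
  have hm : (0 : ℝ) < 4 * (m + 1) := by positivity
  have evA : ∀ᶠ θ : ℝ in 𝓝[>] 0, ∀ k : Fin N × Fin (m + 1),
      |f.1 (y k.2 + (θ * c k * y k.2 u) • pv) - f.1 (y k.2)| ≤ η / (4 * (m + 1)) := by
    rw [eventually_all]
    intro k
    have h1 : Continuous fun θ : ℝ => |f.1 (y k.2 + (θ * c k * y k.2 u) • pv) - f.1 (y k.2)| := by
      have := continuous_of_mem hf0
      fun_prop
    have h2 := h1.continuousAt (x := 0)
    exact nhdsWithin_le_nhds (h2.eventually (ge_mem_nhds (by simpa using div_pos hη hm)))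
  have evC : ∀ᶠ θ : ℝ in 𝓝[>] 0, θ * M * (1 + ‖f‖) ≤ η / 4 := by
    have h1 : ContinuousAt (fun θ : ℝ => θ * M * (1 + ‖f‖)) 0 := by fun_prop
    exact nhdsWithin_le_nhds (h1.eventually (ge_mem_nhds (by simpa using hη)))
  obtain ⟨θ, ⟨⟨hA, hB⟩, hC⟩, hθ⟩ :=
    (((evA.and (eventually_inj r c hcinj)).and evC).and self_mem_nhdsWithin).exists
  have hθ0 : (0 : ℝ) < θ := hθ
  set R : Fin N × Fin (m + 1) → ℝ := fun k => r k + θ * c k with hR
  obtain ⟨ρ, hρ, hgap⟩ := exists_gap R hB
  set z : Fin N × Fin (m + 1) → StrongDual ℝ E := fun k => y k.2 + (θ * c k * y k.2 u) • pv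
    with hz
  have hzu : ∀ k, z k u = y k.2 u := fun k => by simp [hz, h21]
  have hzv : ∀ k, z k v = y k.2 v + θ * c k * y k.2 u := fun k => by simp [hz, h22]
  set β : Fin N × Fin (m + 1) → H E := fun k =>
    supH (ρ • absH (delta E u) - absH (delta E (v - R k • u))) 0 with hβ
  have hβval : ∀ k φ, (β k).1 φ = max (ρ * |φ u| - |φ v - R k * φ u|) 0 := fun k φ => by
    simp [hβ]
  have hβmem : ∀ k, β k ∈ L0 E := fun k => supH_mem (sub_mem
    (Submodule.smul_mem _ _ (absH_mem (delta_mem _))) (absH_mem (delta_mem _))) (zero_mem _)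
  have hdisj : ∀ φ k l, (β k).1 φ ≠ 0 → (β l).1 φ ≠ 0 → k = l := by
    intro φ k l hk hl
    by_contra hkl
    have a1 : |φ v - R k * φ u| < ρ * |φ u| := by
      by_contra h
      exact hk (by rw [hβval, max_eq_right (by linarith)])
    have a2 : |φ v - R l * φ u| < ρ * |φ u| := by
      by_contra h
      exact hl (by rw [hβval, max_eq_right (by linarith)])
    have a3 : |R k - R l| * |φ u| ≤ |φ v - R k * φ u| + |φ v - R l * φ u| := by
      rw [← abs_mul, show (R k - R l) * φ u = (φ v - R l * φ u) - (φ v - R k * φ u) by ring,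
        add_comm]
      exact abs_sub _ _
    have a4 := mul_le_mul_of_nonneg_right (hgap k l hkl) (abs_nonneg (φ u))
    linarith
  set s : Fin N × Fin (m + 1) → ℝ := fun k => if 0 ≤ f.1 (z k) then 1 else -1 with hs
  set h : Fin N → H E := fun j =>
    clip (g + ∑ i, (2 / ρ * s (j, i)) • β (j, i)) (absH (delta E u)) with hh
  have hhmem : ∀ j, h j ∈ L0 E := fun j => clip_mem (add_mem hg0 (Submodule.sum_mem _
    fun i _ => Submodule.smul_mem _ _ (hβmem _))) (absH_mem (delta_mem _))
  have hhle : ∀ j φ, |(h j).1 φ| ≤ |φ u| := fun j φ => clip_abs_le _ _ φ (abs_nonneg _)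
  have hhval : ∀ j φ, (h j).1 φ
      = max (min (g.1 φ + ∑ i, 2 / ρ * s (j, i) * (β (j, i)).1 φ) |φ u|) (-|φ u|) := by
    intro j φ
    simp only [hh]
    rw [clip_val, add_val, sum_val]
    rfl
  have hsame : ∀ j φ, (∀ i, (β (j, i)).1 φ = 0) → (h j).1 φ = g.1 φ := by
    intro j φ h0
    have := abs_le.mp (hg φ)
    rw [hhval, Finset.sum_eq_zero fun i _ => by rw [h0 i, mul_zero], add_zero,
      min_eq_left this.2, max_eq_left this.1]
  have hsumle : ‖∑ j, (h j - g)‖ ≤ 2 := by
    have h1 : ‖∑ j, (h j - g)‖ ≤ 2 * ‖delta E u‖ := by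
      apply norm_le_of_abs_le (by norm_num)
      intro φ
      rw [sum_val, delta_val]
      by_cases hex : ∃ k, (β k).1 φ ≠ 0
      · obtain ⟨k, hk⟩ := hex
        rw [Finset.sum_eq_single k.1]
        · rw [sub_val]
          linarith [abs_sub ((h k.1).1 φ) (g.1 φ), hhle k.1 φ, hg φ]
        · intro j _ hj
          rw [sub_val, hsame j φ, sub_self]
          intro i
          by_contra hi
          exact hj (congrArg Prod.fst (hdisj φ _ _ hi hk))
        · simp
      · push Not at hex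
        rw [Finset.sum_eq_zero fun j _ => by rw [sub_val, hsame j φ fun i => hex _, sub_self]]
        simp
    linarith [norm_delta_le u]
  obtain ⟨j, _, hj⟩ : ∃ j ∈ (Finset.univ : Finset (Fin N)), -(2 * ‖F‖ / N) ≤ F (h j - g) := by
    apply Finset.exists_le_of_sum_le
    · have : 0 < N := by exact_mod_cast hN0
      exact ⟨⟨0, this⟩, Finset.mem_univ _⟩
    · rw [← map_sum, Finset.sum_const, Finset.card_univ, Fintype.card_fin, nsmul_eq_mul]
      have h1 := F.le_opNorm (∑ j, (h j - g))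
      have h2 := mul_le_mul_of_nonneg_left hsumle (norm_nonneg F)
      have h3 := neg_abs_le (F (∑ j, (h j - g)))
      rw [Real.norm_eq_abs] at h1
      have h4 : (N : ℝ) * -(2 * ‖F‖ / N) = -(2 * ‖F‖) := by field_simp
      linarith
  refine ⟨h j, hhmem j, hhle j, by rw [map_sub] at hj; linarith, ?_⟩
  have hpt : ∀ i, (h j).1 (z (j, i)) = s (j, i) * |y i u| := by
    intro i
    by_cases ha : y i u = 0
    · have := hhle j (z (j, i))
      rw [hzu, ha, abs_zero] at this
      rw [ha, abs_zero, mul_zero]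
      exact abs_nonpos_iff.mp this
    · have hb : (β (j, i)).1 (z (j, i)) = ρ * |y i u| := by
        rw [hβval, hzu, hzv]
        have : y i v + θ * c (j, i) * y i u - R (j, i) * y i u = 0 := by
          simp only [hR, hr]
          field_simp
          ring
        rw [this, abs_zero, sub_zero, max_eq_left (by positivity)]
      have hb0 : (β (j, i)).1 (z (j, i)) ≠ 0 := by
        rw [hb]
        exact (mul_pos hρ (abs_pos.mpr ha)).ne'
      rw [hhval, Finset.sum_eq_single i, hb, hzu]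
      · have e1 : 2 / ρ * s (j, i) * (ρ * |y i u|) = 2 * s (j, i) * |y i u| := by field_simp
        have e2 := abs_le.mp (hg (z (j, i)))
        rw [hzu] at e2
        have e3 := abs_nonneg (y i u)
        rw [e1]
        simp only [hs] at e2 ⊢
        split_ifs
        · rw [min_eq_right (by linarith), max_eq_left (by linarith), one_mul]
        · rw [max_eq_right ((min_le_left _ _).trans (by linarith)), neg_one_mul]
      · intro i' _ hi'
        by_cases h0 : (β (j, i')).1 (z (j, i)) = 0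
        · rw [h0, mul_zero]
        · exact absurd (congrArg Prod.snd (hdisj _ _ _ h0 hb0)) hi'
      · simp
  have hlow : ∀ i, |y i u| + |f.1 (y i)| - η / (4 * (m + 1)) ≤ |(h j + f).1 (z (j, i))| := by
    intro i
    have e1 : |f.1 (y i)| - η / (4 * (m + 1)) ≤ |f.1 (z (j, i))| := by
      have a1 := hA (j, i)
      have a2 := abs_sub_abs_le_abs_sub (f.1 (y i)) (f.1 (z (j, i)))
      rw [abs_sub_comm] at a2
      simp only [hz] at a2 ⊢
      linarith
    have e2 : |(h j + f).1 (z (j, i))| = |y i u| + |f.1 (z (j, i))| := by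
      rw [add_val, hpt]
      simp only [hs]
      have e3 := abs_nonneg (y i u)
      split_ifs with h0
      · rw [one_mul, abs_of_nonneg h0, abs_of_nonneg (by linarith)]
      · have h0' := not_le.mp h0
        rw [abs_of_neg h0', abs_of_nonpos (by linarith)]
        ring
    linarith
  have hM0 : 0 ≤ θ * M := by positivity
  have hup := sum_le_norm hball (h j + f) (fun i => z (j, i)) (C := 1 + θ * M) (by linarith)
    (by simp only [hzu]; linarith)
    (by
      have a1 : ∀ i, |z (j, i) v| ≤ |y i v| + θ * M * |y i u| := by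
        intro i
        rw [hzv]
        refine (abs_add_le _ _).trans ?_
        rw [abs_mul, abs_of_nonneg (mul_nonneg hθ0.le (hc0 _))]
        have := mul_le_mul_of_nonneg_right (mul_le_mul_of_nonneg_left (hcM (j, i)) hθ0.le)
          (abs_nonneg (y i u))
        linarith
      refine (Finset.sum_le_sum fun i _ => a1 i).trans ?_
      rw [Finset.sum_add_distrib, ← Finset.mul_sum, hyu]
      linarith)
  have hsum := Finset.sum_le_sum fun i (_ : i ∈ Finset.univ) => hlow i
  rw [Finset.sum_sub_distrib, Finset.sum_add_distrib, hyu, Finset.sum_const, Finset.card_univ,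
    Fintype.card_fin, nsmul_eq_mul] at hsum
  have e4 : ((m + 1 : ℕ) : ℝ) * (η / (4 * (m + 1))) = η / 4 := by
    push_cast
    field_simp
  have hn1 : ‖h j‖ ≤ 1 := by
    have := norm_le_of_abs_le (k := h j) (f := delta E u) zero_le_one
      fun φ => by rw [one_mul]; exact hhle j φ
    linarith [norm_delta_le u]
  have hn2 : ‖h j + f‖ ≤ 1 + ‖f‖ := (norm_add_le _ _).trans (by linarith)
  have := mul_le_mul_of_nonneg_left hn2 hM0
  linarith

end Pool.Agent.P.MP_207313_an
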