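import Pool.Agent.P.MP_207313_an.Bump

/-!
The Daugavet equation for rank-one operators on `FBL[E]` when `B_E` is the absolutely convex hull
of two independent vectors.
-/

namespace Pool.Agent.P.MP_207313_an

variable {E : Type} [NormedAddCommGroup E] [NormedSpace ℝ E]

lemma key_prop {u v : E}
    (hball : ∀ y : E, ‖y‖ ≤ 1 → ∃ s t : ℝ, y = s • u + t • v ∧ |s| + |t| ≤ 1)
    (hu : ‖u‖ ≤ 1) (hv : ‖v‖ ≤ 1) (pu pv : StrongDual ℝ E) (h11 : pu u = 1) (h12 : pu v = 0)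
    (h21 : pv u = 0) (h22 : pv v = 1) (F : FBL E →L[ℝ] ℝ) (f : FBL E) (η : ℝ) (hη : 0 < η) :
    ∃ x : FBL E, ‖x‖ ≤ 1 ∧ ‖F‖ - η ≤ F x ∧ 1 + ‖f‖ - η ≤ ‖x + f‖ := by
  obtain ⟨G, hG, -⟩ := exists_extension_norm_eq (FBL E) F
  have hball' : ∀ y : E, ‖y‖ ≤ 1 → ∃ s t : ℝ, y = s • v + t • u ∧ |s| + |t| ≤ 1 := by
    intro y hy
    obtain ⟨s, t, h1, h2⟩ := hball y hy
    exact ⟨t, s, by rw [h1, add_comm], by linarith⟩
  have hdense : ∀ (a : FBL E) (δ : ℝ), 0 < δ → ∃ b ∈ L0 E, ‖(a : H E) - b‖ < δ := by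
    intro a δ hδ
    have ha : (a : H E) ∈ closure (L0 E : Set (H E)) := a.2
    obtain ⟨b, hb, hab⟩ := Metric.mem_closure_iff.mp ha δ hδ
    exact ⟨b, hb, by rwa [dist_eq_norm] at hab⟩
  obtain ⟨x0, hx0, hFx0⟩ : ∃ x0 : FBL E, ‖x0‖ < 1 ∧ ‖F‖ - η / 3 < F x0 := by
    obtain ⟨x, hx, hF⟩ := F.exists_lt_apply_of_lt_opNorm (show ‖F‖ - η / 3 < ‖F‖ by linarith)
    rcases le_total 0 (F x) with h | h
    · exact ⟨x, hx, by rwa [Real.norm_eq_abs, abs_of_nonneg h] at hF⟩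
    · exact ⟨-x, by rwa [norm_neg], by rwa [Real.norm_eq_abs, abs_of_nonpos h, ← map_neg] at hF⟩
  have hG0 := norm_nonneg G
  obtain ⟨g, hg0, hg⟩ := hdense x0 (min (1 - ‖x0‖) (η / 3 / (‖G‖ + 1)))
    (lt_min (by linarith) (by positivity))
  have hg1 : ‖g‖ ≤ 1 := by
    have a1 := norm_sub_norm_le g (x0 : H E)
    rw [norm_sub_rev] at a1
    have a2 := hg.trans_le (min_le_left _ _)
    have a3 : ‖(x0 : H E)‖ = ‖x0‖ := rfl
    linarith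
  have hg2 : ‖F‖ - 2 * η / 3 < G g := by
    have a1 := G.le_opNorm ((x0 : H E) - g)
    have a2 := hg.trans_le (min_le_right _ _)
    rw [lt_div_iff₀ (by linarith)] at a2
    rw [map_sub, hG, Real.norm_eq_abs] at a1
    have a3 := le_abs_self (F x0 - G g)
    have a4 := norm_nonneg ((x0 : H E) - g)
    nlinarith
  obtain ⟨f0, hf0, hff⟩ := hdense f (η / 3) (by linarith)
  have fin : ∀ h ∈ L0 E, ∀ (g' : H E) (w : E), ‖w‖ ≤ 1 → (∀ φ, |h.1 φ| ≤ |φ w|) →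
      ‖F‖ - 2 * η / 3 < G g' → G g' - η / 3 ≤ G h → 1 + ‖f0‖ - η / 3 ≤ ‖h + f0‖ →
      ∃ x : FBL E, ‖x‖ ≤ 1 ∧ ‖F‖ - η ≤ F x ∧ 1 + ‖f‖ - η ≤ ‖x + f‖ := by
    intro h hh g' w hw hle a1 a2 a3
    refine ⟨⟨h, (L0 E).le_topologicalClosure hh⟩, ?_, ?_, ?_⟩
    · have := norm_le_of_abs_le (k := h) (f := delta E w) zero_le_one
        fun φ => by rw [one_mul]; exact hle φ
      show ‖h‖ ≤ 1
      linarith [norm_delta_le w]
    · rw [← hG]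
      show ‖F‖ - η ≤ G h
      linarith
    · show 1 + ‖(f : H E)‖ - η ≤ ‖h + (f : H E)‖
      have b1 := norm_sub_norm_le (f : H E) f0
      have b2 := norm_sub_norm_le (h + f0) (h + (f : H E))
      rw [add_sub_add_left_eq_sub, norm_sub_rev] at b2
      linarith
  rcases riesz_step hball G g hg0 hg1 _ hg2 with ⟨g', hg', hle, hGg⟩ | ⟨g', hg', hle, hGg⟩
  · obtain ⟨h, hh, c1, c2, c3⟩ := bump_step hball hu hv pu pv h11 h12 h21 h22 G g' hg' hle f0 hf0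
      (η / 3) (by linarith)
    exact fin h hh g' u hu c1 hGg c2 c3
  · obtain ⟨h, hh, c1, c2, c3⟩ := bump_step hball' hv hu pv pu h22 h21 h12 h11 G g' hg' hle f0 hf0
      (η / 3) (by linarith)
    exact fin h hh g' v hv c1 hGg c2 c3

/-- An abstract criterion for the Daugavet property. -/
lemma daugavet_of {X : Type} [NormedAddCommGroup X] [NormedSpace ℝ X]
    (hX : ∀ (F : X →L[ℝ] ℝ) (f : X) (η : ℝ), 0 < η →
      ∃ x : X, ‖x‖ ≤ 1 ∧ ‖F‖ - η ≤ F x ∧ 1 + ‖f‖ - η ≤ ‖x + f‖)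
    (T : X →L[ℝ] X) (hT : Module.finrank ℝ (LinearMap.range (T : X →ₗ[ℝ] X)) = 1) :
    ‖ContinuousLinearMap.id ℝ X + T‖ = 1 + ‖T‖ := by
  apply le_antisymm
  · exact (norm_add_le _ _).trans (by linarith [ContinuousLinearMap.norm_id_le (𝕜 := ℝ) (E := X)])
  obtain ⟨⟨f, hfm⟩, hf0, hf⟩ := finrank_eq_one_iff'.mp hT
  have hf0' : f ≠ 0 := fun h => hf0 (Subtype.ext h)
  have hfp : 0 < ‖f‖ := norm_pos_iff.mpr hf0'
  obtain ⟨p, -, hp⟩ := exists_dual_vector ℝ f hfp.ne'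
  set F : X →L[ℝ] ℝ := ‖f‖⁻¹ • p.comp T with hF
  have hTx : ∀ x, T x = F x • f := by
    intro x
    obtain ⟨c, hc⟩ := hf ⟨T x, x, rfl⟩
    have hc' : c • f = T x := congrArg Subtype.val hc
    have : F x = c := by
      simp only [hF, smul_apply, ContinuousLinearMap.comp_apply, ← hc', map_smul, hp, smul_eq_mul]
      simp only [RCLike.ofReal_real_eq_id, id]
      field_simp
    rw [this, hc']
  have hTn : ‖T‖ ≤ ‖F‖ * ‖f‖ := by
    apply ContinuousLinearMap.opNorm_le_bound _ (by positivity)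
    intro x
    rw [hTx, norm_smul]
    have := mul_le_mul_of_nonneg_right (F.le_opNorm x) hfp.le
    linarith
  apply le_of_forall_pos_le_add
  intro ε hε
  obtain ⟨x, hx1, hx2, hx3⟩ := hX F (‖F‖ • f) (ε / (1 + ‖f‖)) (by positivity)
  have a1 : ‖x + T x‖ ≤ ‖ContinuousLinearMap.id ℝ X + T‖ := by
    have := (ContinuousLinearMap.id ℝ X + T).le_opNorm x
    exact this.trans (mul_le_of_le_one_right (norm_nonneg _) hx1)
  have a2 : F x ≤ ‖F‖ := by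
    have := F.le_opNorm x
    rw [Real.norm_eq_abs] at this
    exact (le_abs_self _).trans (this.trans (mul_le_of_le_one_right (norm_nonneg _) hx1))
  have a3 : ‖x + ‖F‖ • f‖ ≤ ‖x + T x‖ + ε / (1 + ‖f‖) * ‖f‖ := by
    have e : x + ‖F‖ • f = (x + T x) + (‖F‖ - F x) • f := by
      rw [hTx, sub_smul]; abel
    rw [e]
    refine (norm_add_le _ _).trans ?_
    rw [norm_smul, Real.norm_eq_abs, abs_of_nonneg (by linarith)]
    have := mul_le_mul_of_nonneg_right (show ‖F‖ - F x ≤ ε / (1 + ‖f‖) by linarith) hfp.le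
    linarith
  rw [norm_smul, norm_norm] at hx3
  have a4 : ε / (1 + ‖f‖) * ‖f‖ + ε / (1 + ‖f‖) = ε := by field_simp; ring
  linarith

theorem daugavet_l1 :
    Nontrivial (FBL (PiLp 1 fun _ : Fin 2 => ℝ)) ∧
    ∀ T : FBL (PiLp 1 fun _ : Fin 2 => ℝ) →L[ℝ] FBL (PiLp 1 fun _ : Fin 2 => ℝ),
      Module.finrank ℝ (LinearMap.range (T : FBL (PiLp 1 fun _ : Fin 2 => ℝ) →ₗ[ℝ]
        FBL (PiLp 1 fun _ : Fin 2 => ℝ))) = 1 →
      ‖ContinuousLinearMap.id ℝ (FBL (PiLp 1 fun _ : Fin 2 => ℝ)) + T‖ = 1 + ‖T‖ := by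
  set u : PiLp 1 fun _ : Fin 2 => ℝ := WithLp.toLp 1 ![1, 0] with hu
  set v : PiLp 1 fun _ : Fin 2 => ℝ := WithLp.toLp 1 ![0, 1] with hv
  set pu : StrongDual ℝ (PiLp 1 fun _ : Fin 2 => ℝ) := PiLp.proj 1 (fun _ : Fin 2 => ℝ) 0 with hpu
  set pv : StrongDual ℝ (PiLp 1 fun _ : Fin 2 => ℝ) := PiLp.proj 1 (fun _ : Fin 2 => ℝ) 1 with hpv
  refine ⟨⟨⟨delta _ u, (L0 _).le_topologicalClosure (delta_mem u)⟩, 0, fun h => ?_⟩,
    daugavet_of fun F f η hη => key_prop (u := u) (v := v) ?_ ?_ ?_ pu pv ?_ ?_ ?_ ?_ F f η hη⟩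
  · have := congrArg (fun k : FBL (PiLp 1 fun _ : Fin 2 => ℝ) => k.1.1 pu) h
    simp [hpu, hu] at this
  · intro y hy
    refine ⟨y 0, y 1, ?_, ?_⟩
    · ext i
      fin_cases i <;> simp [hu, hv]
    · simpa [PiLp.norm_eq_of_L1] using hy
  · simp [hu, PiLp.norm_eq_of_L1]
  · simp [hv, PiLp.norm_eq_of_L1]
  · simp [hpu, hu]
  · simp [hpu, hv]
  · simp [hpv, hu]
  · simp [hpv, hv]

lemma inLat_iff (g : StrongDual ℝ E → ℝ) : InLat E g ↔ ∃ k ∈ L0 E, k.1 = g := by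
  let j : H E →ₗ[ℝ] (StrongDual ℝ E → ℝ) := (Hsub E).subtype
  constructor
  · intro h
    refine h ((L0 E).map j) (fun x => ⟨delta E x, delta_mem x, rfl⟩) ?_
    rintro _ ⟨a, ha, rfl⟩ _ ⟨b, hb, rfl⟩
    exact ⟨supH a b, supH_mem ha hb, rfl⟩
  · rintro ⟨k, hk, rfl⟩ S h1 h2
    refine Submodule.mem_sInf.mp hk (S.comap j) ⟨fun x => h1 x, fun a ha b hb c hc => ?_⟩
    show c.1 ∈ S
    rw [show c.1 = fun φ => max (a.1 φ) (b.1 φ) from funext hc]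
    exact h2 _ ha _ hb

theorem isFBL : IsFBL E (FBL E) := by
  let j : H E →ₗ[ℝ] (StrongDual ℝ E → ℝ) := (Hsub E).subtype
  refine ⟨j.comp (FBL E).subtype, ?_, fun x => rfl⟩
  ext f
  constructor
  · rintro ⟨a, rfl⟩
    refine ⟨a.1.2, fun ε hε => ?_⟩
    have ha : (a : H E) ∈ closure (L0 E : Set (H E)) := a.2
    obtain ⟨b, hb, hab⟩ := Metric.mem_closure_iff.mp ha ε hε
    rw [dist_eq_norm] at hab
    exact ⟨b.1, (inLat_iff _).mpr ⟨b, hb, rfl⟩, hab⟩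
  · rintro ⟨h1, h2⟩
    refine ⟨⟨(⟨f, h1⟩ : Hsub E), ?_⟩, rfl⟩
    refine Metric.mem_closure_iff.mpr fun ε hε => ?_
    obtain ⟨g, hg, hfg⟩ := h2 ε hε
    obtain ⟨k, hk, rfl⟩ := (inLat_iff _).mp hg
    exact ⟨k, hk, by rw [dist_eq_norm]; exact hfg⟩

end Pool.Agent.P.MP_207313_an
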