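import Pool.Agent.P.MP_207313_an.Stmt

/-!
The free Banach lattice `FBL[E]` generated by a real normed space `E`.
-/

namespace Pool.Agent.P.MP_207313_an

variable (E : Type) [NormedAddCommGroup E] [NormedSpace ℝ E]

theorem zero_mem_normSet (f : StrongDual ℝ E → ℝ) : (0 : ℝ) ∈ normSet E f :=
  ⟨0, Fin.elim0, by simp, by simp⟩

theorem normSet_le {f g k : StrongDual ℝ E → ℝ} {a b A B : ℝ} (ha : 0 ≤ a) (hb : 0 ≤ b)
    (h : ∀ φ, |k φ| ≤ a * |f φ| + b * |g φ|) (hA : A ∈ upperBounds (normSet E f))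
    (hB : B ∈ upperBounds (normSet E g)) : a * A + b * B ∈ upperBounds (normSet E k) := by
  rintro _ ⟨m, x, hx, rfl⟩
  have h1 := mul_le_mul_of_nonneg_left (hA ⟨m, x, hx, rfl⟩) ha
  have h2 := mul_le_mul_of_nonneg_left (hB ⟨m, x, hx, rfl⟩) hb
  have h3 := Finset.sum_le_sum fun i (_ : i ∈ Finset.univ) => h (x i)
  rw [Finset.sum_add_distrib, ← Finset.mul_sum, ← Finset.mul_sum] at h3
  linarith

/-- Positively homogeneous functions on `E*` of finite norm. -/
def Hsub : Submodule ℝ (StrongDual ℝ E → ℝ) where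
  carrier := {f | (∀ (c : ℝ) (φ : StrongDual ℝ E), 0 ≤ c → f (c • φ) = c * f φ) ∧
    BddAbove (normSet E f)}
  add_mem' := by
    rintro f g ⟨h1, A, hA⟩ ⟨h2, B, hB⟩
    exact ⟨fun c φ hc => by simp [h1 c φ hc, h2 c φ hc, mul_add],
      _, normSet_le E zero_le_one zero_le_one (fun φ => by simpa using abs_add_le _ _) hA hB⟩
  zero_mem' := ⟨by simp, 0, by rintro _ ⟨m, x, _, rfl⟩; simp⟩
  smul_mem' := by
    rintro a f ⟨h1, A, hA⟩
    exact ⟨fun c φ hc => by simp [h1 c φ hc, mul_left_comm],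
      _, normSet_le E (abs_nonneg a) le_rfl (fun φ => by simp [abs_mul]) hA hA⟩

/-- The space `H[E]`. -/
def H : Type := Hsub E

instance : AddCommGroup (H E) := inferInstanceAs (AddCommGroup (Hsub E))

instance : Module ℝ (H E) := inferInstanceAs (Module ℝ (Hsub E))

theorem sSup_le_of {f g k : H E} {a b : ℝ} (ha : 0 ≤ a) (hb : 0 ≤ b)
    (h : ∀ φ, |k.1 φ| ≤ a * |f.1 φ| + b * |g.1 φ|) :
    sSup (normSet E k.1) ≤ a * sSup (normSet E f.1) + b * sSup (normSet E g.1) :=
  csSup_le ⟨_, zero_mem_normSet E _⟩ (normSet_le E ha hb h (fun _ hr => le_csSup f.2.2 hr)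
    (fun _ hr => le_csSup g.2.2 hr))

theorem abs_apply_le (f : H E) (φ : StrongDual ℝ E) : |f.1 φ| ≤ sSup (normSet E f.1) * ‖φ‖ := by
  rcases eq_or_ne φ 0 with rfl | h
  · simpa using f.2.1 0 0 le_rfl
  · have hp : 0 < ‖φ‖ := norm_pos_iff.mpr h
    have h1 : |f.1 (‖φ‖⁻¹ • φ)| ≤ sSup (normSet E f.1) := by
      refine le_csSup f.2.2 ⟨1, fun _ => ‖φ‖⁻¹ • φ, fun y hy => ?_, by simp⟩
      have := (φ.le_opNorm y).trans (mul_le_of_le_one_right hp.le hy)
      simpa [abs_mul, inv_mul_le_iff₀ hp] using this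
    rwa [f.2.1 _ _ (inv_nonneg.mpr hp.le), abs_mul, abs_of_pos (inv_pos.mpr hp),
      inv_mul_le_iff₀ hp, mul_comm] at h1

/-- The norm of `H[E]` is the supremum of `normSet`. -/
noncomputable instance : NormedAddCommGroup (H E) :=
  AddGroupNorm.toNormedAddCommGroup
    { toFun := fun f => sSup (normSet E f.1)
      map_zero' := le_antisymm (by
        simpa using sSup_le_of E (f := 0) (g := 0) (k := 0) le_rfl le_rfl fun φ => by
          simp [show (0 : H E).1 φ = 0 from rfl]) (le_csSup (0 : H E).2.2 (zero_mem_normSet E _))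
      add_le' := fun f g => by
        simpa using sSup_le_of E (k := f + g) zero_le_one zero_le_one fun φ => by
          rw [one_mul, one_mul]; exact abs_add_le (f.1 φ) (g.1 φ)
      neg' := fun f => by simp [normSet, show ∀ φ, (-f).1 φ = -f.1 φ from fun _ => rfl]
      eq_zero_of_map_eq_zero' := fun f hf => Subtype.ext (funext fun φ => by
        show f.1 φ = 0
        simpa [hf] using abs_apply_le E f φ) }

noncomputable instance : NormedSpace ℝ (H E) where
  norm_smul_le a f := by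
    show sSup (normSet E (a • f).1) ≤ |a| * sSup (normSet E f.1)
    simpa using sSup_le_of E (k := a • f) (f := f) (g := f) (abs_nonneg a) le_rfl fun φ => by
      simp [show (a • f).1 φ = a * f.1 φ from rfl, abs_mul]

/-- The evaluation `δ_x`. -/
def delta (x : E) : H E :=
  ⟨fun φ => φ x, fun c φ _ => by simp, ‖x‖, by
    rintro _ ⟨m, y, hy, rfl⟩
    rcases eq_or_ne x 0 with rfl | h
    · simp
    · have hp : 0 < ‖x‖ := norm_pos_iff.mpr h
      have := hy (‖x‖⁻¹ • x) (by simp [norm_smul, hp.ne'])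
      simpa [abs_mul, ← Finset.mul_sum, inv_mul_le_iff₀ hp] using this⟩

/-- `FBL[E]`: the norm closure of the smallest subspace of `H[E]` that contains every `δ_x` and is
closed under pointwise maxima. -/
noncomputable def FBL : Submodule ℝ (H E) :=
  (sInf {S : Submodule ℝ (H E) | (∀ x : E, delta E x ∈ S) ∧
    ∀ f ∈ S, ∀ g ∈ S, ∀ k : H E, (∀ φ, k.1 φ = max (f.1 φ) (g.1 φ)) → k ∈ S}).topologicalClosure

end Pool.Agent.P.MP_207313_an
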