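import Mathlib

/-!
Definitions used in the statement: the free Banach lattice `FBL[E]` as a set of functions on `E*`.
-/

namespace Pool.Agent.P.MP_207313_an

variable (E : Type) [NormedAddCommGroup E] [NormedSpace ℝ E]

/-- The numbers `∑ |f (x i)|` over finite families in `E*` with `sup_{y ∈ B_E} ∑ |x i y| ≤ 1`;
the norm of `f` is the supremum of this set. -/
def normSet (f : StrongDual ℝ E → ℝ) : Set ℝ :=
  {r | ∃ (m : ℕ) (x : Fin m → StrongDual ℝ E),
    (∀ y : E, ‖y‖ ≤ 1 → ∑ i, |x i y| ≤ 1) ∧ r = ∑ i, |f (x i)|}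

/-- `f ∈ H[E]`: positively homogeneous and of finite norm. -/
def InH (f : StrongDual ℝ E → ℝ) : Prop :=
  (∀ (c : ℝ) (φ : StrongDual ℝ E), 0 ≤ c → f (c • φ) = c * f φ) ∧ BddAbove (normSet E f)

/-- `g` lies in the vector sublattice generated by the evaluations `δ_x`. -/
def InLat (g : StrongDual ℝ E → ℝ) : Prop :=
  ∀ S : Submodule ℝ (StrongDual ℝ E → ℝ), (∀ x : E, (fun φ => φ x) ∈ S) →
    (∀ a ∈ S, ∀ b ∈ S, (fun φ => max (a φ) (b φ)) ∈ S) → g ∈ S

/-- `FBL[E]`: the norm closure in `H[E]` of that sublattice. -/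
def FBLset : Set (StrongDual ℝ E → ℝ) :=
  {f | InH E f ∧ ∀ ε : ℝ, 0 < ε → ∃ g, InLat E g ∧ sSup (normSet E (f - g)) < ε}

/-- `X` is (linearly isometric to) the normed space `FBL[E]`. -/
def IsFBL (X : Type) [NormedAddCommGroup X] [NormedSpace ℝ X] : Prop :=
  ∃ ι : X →ₗ[ℝ] (StrongDual ℝ E → ℝ),
    Set.range ι = FBLset E ∧ ∀ x : X, ‖x‖ = sSup (normSet E (ι x))

/-- The Daugavet property: `‖I + T‖ = 1 + ‖T‖` for every bounded rank-one operator `T`. -/
def HasDaugavet (X : Type) [NormedAddCommGroup X] [NormedSpace ℝ X] : Prop :=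
  ∀ T : X →L[ℝ] X, Module.finrank ℝ (LinearMap.range (T : X →ₗ[ℝ] X)) = 1 →
    ‖ContinuousLinearMap.id ℝ X + T‖ = 1 + ‖T‖

end Pool.Agent.P.MP_207313_an
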